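import Pool.Agent.K.MP_c47a54_pr.C4
import Pool.Agent.K.MP_c47a54_pr.C2
import Pool.Agent.K.MP_c47a54_pr.C0

namespace Pool.Agent.Results.MP_c47a54_pr.Cutoff

open Pool.Agent.P.MP_c47a54_pr Filter

theorem result (d : ℕ) (hd : 2 ≤ d) (μ : Equiv.Perm (Fin d) → ℝ) (h0 : ∀ σ, 0 ≤ μ σ)
    (h1 : ∑ σ, μ σ = 1) (hirr : ∀ i j, ∃ k : ℕ, 0 < (urnMat μ ^ k) i j)
    (ε : ℝ) (hε0 : 0 < ε) (hε1 : ε < 1) :
    Tendsto (fun n : ℕ => tmix (heat (jumpX μ n)) (spaceX μ n) ε / cutTime μ n) atTop (nhds 1) ∧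
      Tendsto (fun n : ℕ => tmix (heatY μ n) Finset.univ ε / cutTime μ n) atTop (nhds 1) := by
  have h : Hyp μ := ⟨hd, h0, h1, hirr⟩
  refine ⟨glue _ _ _ (cutTime_pos h) (fun η hη => upperX h hη hε0) fun η hη => lowerX h hη hε1,
    glue _ _ _ (cutTime_pos h) (fun η hη => (upperY h hη hε0).mono fun n hn x _ => hn x)
      fun η hη => (lowerY h hη hε1).mono fun n hn t ht ht' => ?_⟩
  obtain ⟨x, hx⟩ := hn t ht ht'
  exact ⟨x, Finset.mem_univ x, hx⟩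

end Pool.Agent.Results.MP_c47a54_pr.Cutoff
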